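import Mathlib
import Pool.Agent.X142.Val

/-!
A planar discrete point process on which the random walk is recurrent although the tail condition
(T) fails.
-/

open MeasureTheory ProbabilityTheory Finset
open scoped ENNReal

namespace Pool.Agent.Results.MP_01c081_pr.RecurrentWithoutT

open X142.PP X142.Tower X142.Val X142

/-- Condition (T): there is `C > 0` with
`∑_{k ≥ N} k P(f_e = k) / E_P(f_e) ≤ C / N` for `e = e₁, e₂` and all `N ≥ 1`. -/
def ConditionT (Q : Measure Om) : Prop :=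
  ∃ C : ℝ, 0 < C ∧ ∀ e ∈ ({(1, 0), (0, 1)} : Set (ℤ × ℤ)), ∀ N : ℕ, 1 ≤ N →
    (∑' k : ℕ, if N ≤ k then (k : ℝ≥0∞) * (Q[|Om0]) {ω | gap e ω = k} else 0) /
      (∫⁻ ω, (gap e ω : ℝ≥0∞) ∂(Q[|Om0])) ≤ ENNReal.ofReal (C / N)

section expectation

variable (h : ℤ → ℕ)

/-- Expectations of the model chain. -/
noncomputable def E : ℕ → (ℤ × ℤ → ℝ) → ℤ × ℤ → ℝ
  | 0, F, s => F s
  | n + 1, F, s =>
    (E n F (stepM h s 0) + E n F (stepM h s 1) + E n F (stepM h s 2) + E n F (stepM h s 3)) / 4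

/-- Indicator of a state. -/
noncomputable def ind (t s : ℤ × ℤ) : ℝ := by
  classical
  exact if s = t then 1 else 0

lemma E_mono (n : ℕ) {F G : ℤ × ℤ → ℝ} (hFG : ∀ s, F s ≤ G s) (s : ℤ × ℤ) :
    E h n F s ≤ E h n G s := by
  induction n generalizing s with
  | zero => exact hFG s
  | succ n ih =>
    simp only [E]
    have := ih (stepM h s 0)
    have := ih (stepM h s 1)
    have := ih (stepM h s 2)
    have := ih (stepM h s 3)
    linarith

lemma E_add (n : ℕ) (F G : ℤ × ℤ → ℝ) (s : ℤ × ℤ) :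
    E h n (fun t => F t + G t) s = E h n F s + E h n G s := by
  induction n generalizing s with
  | zero => rfl
  | succ n ih => simp only [E, ih]; ring

lemma E_smul (n : ℕ) (c : ℝ) (F : ℤ × ℤ → ℝ) (s : ℤ × ℤ) :
    E h n (fun t => c * F t) s = c * E h n F s := by
  induction n generalizing s with
  | zero => rfl
  | succ n ih => simp only [E, ih]; ring

lemma E_const (n : ℕ) (c : ℝ) (s : ℤ × ℤ) : E h n (fun _ => c) s = c := by
  induction n generalizing s with
  | zero => rfl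
  | succ n ih => simp only [E, ih]; ring

lemma E_sum (n : ℕ) {ι : Type} (B : Finset ι) (F : ι → ℤ × ℤ → ℝ) (s : ℤ × ℤ) :
    E h n (fun t => ∑ x ∈ B, F x t) s = ∑ x ∈ B, E h n (F x) s := by
  classical
  induction B using Finset.induction_on with
  | empty => simp only [sum_empty]; exact E_const h n 0 s
  | insert a B ha ih => simp only [sum_insert ha]; rw [E_add, ih]

lemma E_comp (m n : ℕ) (F : ℤ × ℤ → ℝ) (s : ℤ × ℤ) :
    E h (m + n) F s = E h m (fun t => E h n F t) s := by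
  induction m generalizing s with
  | zero => rw [Nat.zero_add]; rfl
  | succ m ih =>
    rw [show m + 1 + n = (m + n) + 1 by ring]
    simp only [E, ih]

lemma ind_nonneg (t s : ℤ × ℤ) : 0 ≤ ind t s := by
  unfold ind; split_ifs <;> norm_num

lemma E_ind_nonneg (n : ℕ) (t s : ℤ × ℤ) : 0 ≤ E h n (ind t) s := by
  have := E_mono h n (F := fun _ => 0) (G := ind t) (ind_nonneg t) s
  rwa [E_const] at this

lemma ind_step (s x : ℤ × ℤ) :
    ind (stepM h s 0) x + ind (stepM h s 1) x + ind (stepM h s 2) x + ind (stepM h s 3) x =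
    ind s (stepM h x 0) + ind s (stepM h x 1) + ind s (stepM h x 2) + ind s (stepM h x 3) := by
  obtain ⟨s1, s2⟩ := s
  obtain ⟨x1, x2⟩ := x
  have e01 : ind (stepM h (s1, s2) 0) (x1, x2) = ind (s1, s2) (stepM h (x1, x2) 1) := by
    unfold ind
    congr 1
    simp only [stepM, Prod.mk.injEq, eq_iff_iff]
    constructor
    · rintro ⟨h1, h2⟩
      subst h1
      rw [add_sub_cancel_right]
      constructor <;> omega
    · rintro ⟨h1, h2⟩
      have : s1 = x1 - 1 := by omega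
      subst this
      constructor <;> omega
  have e10 : ind (stepM h (s1, s2) 1) (x1, x2) = ind (s1, s2) (stepM h (x1, x2) 0) := by
    unfold ind
    congr 1
    simp only [stepM, Prod.mk.injEq, eq_iff_iff]
    constructor
    · rintro ⟨h1, h2⟩
      subst h1
      constructor <;> omega
    · rintro ⟨h1, h2⟩
      subst h1
      rw [add_sub_cancel_right]
      constructor <;> omega
  have e23 : ind (stepM h (s1, s2) 2) (x1, x2) = ind (s1, s2) (stepM h (x1, x2) 3) := by
    unfold ind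
    congr 1
    simp only [stepM, Prod.mk.injEq, eq_iff_iff]
    constructor
    · rintro ⟨h1, h2⟩
      subst h1
      rw [add_sub_cancel_right]
      constructor <;> omega
    · rintro ⟨h1, h2⟩
      have : s1 = x1 - 1 := by omega
      subst this
      constructor <;> omega
  have e32 : ind (stepM h (s1, s2) 3) (x1, x2) = ind (s1, s2) (stepM h (x1, x2) 2) := by
    unfold ind
    congr 1
    simp only [stepM, Prod.mk.injEq, eq_iff_iff]
    constructor
    · rintro ⟨h1, h2⟩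
      subst h1
      constructor <;> omega
    · rintro ⟨h1, h2⟩
      subst h1
      rw [add_sub_cancel_right]
      constructor <;> omega
  rw [e01, e10, e23, e32]
  ring

/-- Symmetry. -/
lemma E_symm (n : ℕ) (s t : ℤ × ℤ) : E h n (ind t) s = E h n (ind s) t := by
  induction n generalizing s with
  | zero =>
    simp only [E, ind]
    simp only [eq_comm]
  | succ n ih =>
    have h1 : E h (n + 1) (ind t) s = (E h n (ind (stepM h s 0)) t + E h n (ind (stepM h s 1)) t +
        E h n (ind (stepM h s 2)) t + E h n (ind (stepM h s 3)) t) / 4 := by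
      simp only [E]
      rw [ih, ih, ih, ih]
    rw [h1, E_comp h n 1]
    have h2 : ∀ x, E h 1 (ind s) x = 4⁻¹ * (ind (stepM h s 0) x + ind (stepM h s 1) x +
        ind (stepM h s 2) x + ind (stepM h s 3) x) := by
      intro x
      rw [ind_step]
      simp only [E]
      ring
    simp only [h2]
    rw [E_smul, E_add, E_add, E_add]
    ring

lemma E_sq_fst (n : ℕ) (s : ℤ × ℤ) : E h n (fun t => (t.1 : ℝ) ^ 2) s = (s.1 : ℝ) ^ 2 + n := by
  induction n generalizing s with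
  | zero => simp [E]
  | succ n ih =>
    simp only [E, ih, stepM]
    push_cast
    ring

lemma E_sq_snd {N : ℕ} (n : ℕ) (s : ℤ × ℤ) (hN : ∀ j : ℤ, |j - s.1| ≤ n → h j ≤ N) :
    E h n (fun t => (t.2 : ℝ) ^ 2) s ≤ (s.2 : ℝ) ^ 2 + (N : ℝ) ^ 2 * n := by
  induction n generalizing s with
  | zero => simp [E]
  | succ n ih =>
    have a0 : (h s.1 : ℝ) ≤ N := by
      exact_mod_cast hN s.1 (by simp; positivity)
    have a1 : (h (s.1 - 1) : ℝ) ≤ N := by
      exact_mod_cast hN (s.1 - 1) (by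
        rw [show s.1 - 1 - s.1 = -1 by ring]; push_cast; rw [abs_neg, abs_one]; omega)
    have b0 : (h s.1 : ℝ) ^ 2 ≤ N ^ 2 := pow_le_pow_left₀ (by positivity) a0 2
    have b1 : (h (s.1 - 1) : ℝ) ^ 2 ≤ N ^ 2 := pow_le_pow_left₀ (by positivity) a1 2
    have hstep : ∀ d : Fin 4, ∀ j : ℤ, |j - (stepM h s d).1| ≤ n → h j ≤ N := by
      intro d j hj
      apply hN
      have hd : |(stepM h s d).1 - s.1| ≤ 1 := by
        fin_cases d
        · show |s.1 + 1 - s.1| ≤ 1
          rw [add_sub_cancel_left]; simp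
        · show |s.1 - 1 - s.1| ≤ 1
          rw [show s.1 - 1 - s.1 = -1 by ring]; simp
        · show |s.1 + 1 - s.1| ≤ 1
          rw [add_sub_cancel_left]; simp
        · show |s.1 - 1 - s.1| ≤ 1
          rw [show s.1 - 1 - s.1 = -1 by ring]; simp
      calc |j - s.1| = |(j - (stepM h s d).1) + ((stepM h s d).1 - s.1)| := by ring_nf
        _ ≤ |j - (stepM h s d).1| + |(stepM h s d).1 - s.1| := abs_add_le _ _
        _ ≤ ((n + 1 : ℕ) : ℤ) := by push_cast; omega
    have c0 := ih (stepM h s 0) (hstep 0)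
    have c1 := ih (stepM h s 1) (hstep 1)
    have c2 := ih (stepM h s 2) (hstep 2)
    have c3 := ih (stepM h s 3) (hstep 3)
    simp only [E]
    simp only [stepM] at c0 c1 c2 c3 ⊢
    push_cast at c0 c1 c2 c3 ⊢
    nlinarith

/-- Lower bound of the return probability. -/
lemma return_lower {N n : ℕ} (hn : 1 ≤ n) (hN1 : 1 ≤ N) (hN : ∀ j : ℤ, |j| ≤ n → h j ≤ N) :
    1 / (144 * N * n : ℝ) ≤ E h (n + n) (ind (0, 0)) (0, 0) := by
  classical
  have hnR : (1 : ℝ) ≤ n := by exact_mod_cast hn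
  have hNR : (1 : ℝ) ≤ N := by exact_mod_cast hN1
  set r := Nat.sqrt (4 * n) with hr
  set r' := Nat.sqrt (4 * N ^ 2 * n) with hr'
  set B : Finset (ℤ × ℤ) := Icc (-(r : ℤ)) r ×ˢ Icc (-(r' : ℤ)) r' with hB
  have hmem : ∀ t : ℤ × ℤ, (t.1 : ℝ) ^ 2 ≤ 4 * n → (t.2 : ℝ) ^ 2 ≤ 4 * N ^ 2 * n → t ∈ B := by
    intro t h1 h2
    have g1 : t.1 ^ 2 ≤ 4 * (n : ℤ) := by exact_mod_cast h1
    have g2 : t.2 ^ 2 ≤ 4 * (N : ℤ) ^ 2 * n := by exact_mod_cast h2
    have k1 : t.1.natAbs ≤ r := by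
      rw [hr, Nat.le_sqrt']
      zify
      rw [sq_abs]
      exact g1
    have k2 : t.2.natAbs ≤ r' := by
      rw [hr', Nat.le_sqrt']
      zify
      rw [sq_abs]
      exact g2
    rw [hB, mem_product, mem_Icc, mem_Icc]
    omega
  have hcard : (B.card : ℝ) ≤ 36 * N * n := by
    have hr1 : 1 ≤ r := by
      rw [hr, Nat.le_sqrt']
      omega
    have hr1' : 1 ≤ r' := by
      rw [hr', Nat.le_sqrt']
      have : 1 ≤ N ^ 2 := Nat.one_le_pow _ _ hN1
      nlinarith
    have e1 : B.card = (2 * r + 1) * (2 * r' + 1) := by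
      rw [hB, card_product, Int.card_Icc, Int.card_Icc]
      congr 1 <;> omega
    have e2 : r * r' ≤ 4 * N * n := by
      have h1 : r ^ 2 ≤ 4 * n := Nat.sqrt_le' _
      have h2 : r' ^ 2 ≤ 4 * N ^ 2 * n := Nat.sqrt_le' _
      have h3 : (r * r') ^ 2 ≤ (4 * N * n) ^ 2 := by
        calc (r * r') ^ 2 = r ^ 2 * r' ^ 2 := by ring
          _ ≤ (4 * n) * (4 * N ^ 2 * n) := Nat.mul_le_mul h1 h2
          _ = (4 * N * n) ^ 2 := by ring
      exact (Nat.pow_le_pow_iff_left (by norm_num)).mp h3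
    have e3 : B.card ≤ 36 * N * n := by
      rw [e1]
      calc (2 * r + 1) * (2 * r' + 1) ≤ (3 * r) * (3 * r') := Nat.mul_le_mul (by omega) (by omega)
        _ = 9 * (r * r') := by ring
        _ ≤ 9 * (4 * N * n) := by gcongr
        _ = 36 * N * n := by ring
    exact_mod_cast e3
  set q : ℤ × ℤ → ℝ := fun x => E h n (ind x) (0, 0) with hq
  -- Chebyshev
  have hcheb : 1 / 2 ≤ ∑ x ∈ B, q x := by
    have h1 : ∀ t : ℤ × ℤ, 1 + ((-(1 / (4 * n : ℝ))) * (t.1 : ℝ) ^ 2 +
        (-(1 / (4 * N ^ 2 * n : ℝ))) * (t.2 : ℝ) ^ 2) ≤ ∑ x ∈ B, ind x t := by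
      intro t
      have g0 : 0 ≤ ∑ x ∈ B, ind x t := sum_nonneg fun x _ => ind_nonneg x t
      by_cases ht : t ∈ B
      · have g1 : (1 : ℝ) ≤ ∑ x ∈ B, ind x t := by
          calc (1 : ℝ) = ind t t := by simp [ind]
            _ ≤ _ := single_le_sum (f := fun x => ind x t) (fun x _ => ind_nonneg x t) ht
        have g2 : 0 ≤ 1 / (4 * n : ℝ) * (t.1 : ℝ) ^ 2 := by positivity
        have g3 : 0 ≤ 1 / (4 * N ^ 2 * n : ℝ) * (t.2 : ℝ) ^ 2 := by positivity
        linarith
      · by_cases hA : (t.1 : ℝ) ^ 2 ≤ 4 * n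
        · have hA2 : ¬ (t.2 : ℝ) ^ 2 ≤ 4 * N ^ 2 * n := fun hA2 => ht (hmem t hA hA2)
          push Not at hA2
          have g2 : 0 ≤ 1 / (4 * n : ℝ) * (t.1 : ℝ) ^ 2 := by positivity
          have g3 : 1 ≤ 1 / (4 * N ^ 2 * n : ℝ) * (t.2 : ℝ) ^ 2 := by
            rw [one_div, ← div_eq_inv_mul, le_div_iff₀ (by positivity)]
            linarith
          linarith
        · push Not at hA
          have g2 : 1 ≤ 1 / (4 * n : ℝ) * (t.1 : ℝ) ^ 2 := by
            rw [one_div, ← div_eq_inv_mul, le_div_iff₀ (by positivity)]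
            linarith
          have g3 : 0 ≤ 1 / (4 * N ^ 2 * n : ℝ) * (t.2 : ℝ) ^ 2 := by positivity
          linarith
    have h2 := E_mono h n h1 (0, 0)
    rw [E_sum, E_add, E_const, E_add, E_smul, E_smul, E_sq_fst] at h2
    have h3 := E_sq_snd h (N := N) n (0, 0) (fun j hj => hN j (by simpa using hj))
    simp only [Int.cast_zero, ne_eq, OfNat.ofNat_ne_zero, not_false_eq_true, zero_pow,
      zero_add] at h2 h3
    have h4 : 1 / (4 * N ^ 2 * n : ℝ) * E h n (fun t => (t.2 : ℝ) ^ 2) (0, 0) ≤ 1 / 4 := by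
      calc 1 / (4 * N ^ 2 * n : ℝ) * E h n (fun t => (t.2 : ℝ) ^ 2) (0, 0) ≤
            1 / (4 * N ^ 2 * n : ℝ) * (N ^ 2 * n) := mul_le_mul_of_nonneg_left h3 (by positivity)
        _ = 1 / 4 := by field_simp
    have h5 : 1 / (4 * n : ℝ) * n = 1 / 4 := by field_simp
    linarith
  -- Cauchy-Schwarz
  have hCS : (∑ x ∈ B, q x) ^ 2 ≤ B.card * ∑ x ∈ B, q x ^ 2 := sq_sum_le_card_mul_sum_sq
  have hlow : ∑ x ∈ B, q x ^ 2 ≤ E h (n + n) (ind (0, 0)) (0, 0) := by
    rw [E_comp]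
    have h1 : ∀ t, E h n (ind (0, 0)) t = q t := fun t => E_symm h n t (0, 0)
    simp only [h1]
    have h2 : ∀ t, ∑ x ∈ B, q x * ind x t ≤ q t := by
      intro t
      by_cases ht : t ∈ B
      · rw [sum_eq_single t]
        · simp [ind]
        · intro x _ hx
          simp [ind, Ne.symm hx]
        · intro h3; exact absurd ht h3
      · rw [sum_eq_zero]
        · exact E_ind_nonneg h n t (0, 0)
        · intro x hx
          have : t ≠ x := fun e => ht (e ▸ hx)
          simp [ind, this]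
    have h3 := E_mono h n h2 (0, 0)
    rw [E_sum] at h3
    simp only [E_smul] at h3
    refine le_trans (le_of_eq ?_) h3
    apply sum_congr rfl
    intro x _
    rw [pow_two]
  have hfin : 1 / 4 ≤ 36 * N * n * E h (n + n) (ind (0, 0)) (0, 0) := by
    calc (1 / 4 : ℝ) = (1 / 2) ^ 2 := by norm_num
      _ ≤ (∑ x ∈ B, q x) ^ 2 := pow_le_pow_left₀ (by norm_num) hcheb 2
      _ ≤ B.card * ∑ x ∈ B, q x ^ 2 := hCS
      _ ≤ (36 * N * n) * E h (n + n) (ind (0, 0)) (0, 0) := by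
          apply mul_le_mul hcard hlow (sum_nonneg fun x _ => sq_nonneg _) (by positivity)
  rw [div_le_iff₀ (by positivity)]
  linarith

lemma pw_eq (n : ℕ) (s : ℤ × ℤ) :
    Chain.pw (Noise.P (stepM h) (PMF.uniformOfFintype (Fin 4))) n s (0, 0) =
      ENNReal.ofReal (E h n (ind (0, 0)) s) := by
  classical
  induction n generalizing s with
  | zero =>
    simp only [Chain.pw, E, ind]
    split_ifs <;> simp
  | succ n ih =>
    simp only [Chain.pw]
    rw [Noise.tsum_P, tsum_fintype, Fin.sum_univ_four]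
    simp only [ih, PMF.uniformOfFintype_apply, Fintype.card_fin, E]
    rw [← mul_add, ← mul_add, ← mul_add]
    rw [← ENNReal.ofReal_add (E_ind_nonneg _ _ _ _) (E_ind_nonneg _ _ _ _),
      ← ENNReal.ofReal_add (add_nonneg (E_ind_nonneg _ _ _ _) (E_ind_nonneg _ _ _ _))
        (E_ind_nonneg _ _ _ _),
      ← ENNReal.ofReal_add (add_nonneg (add_nonneg (E_ind_nonneg _ _ _ _) (E_ind_nonneg _ _ _ _))
        (E_ind_nonneg _ _ _ _)) (E_ind_nonneg _ _ _ _)]
    rw [div_eq_inv_mul, ENNReal.ofReal_mul (by norm_num)]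
    congr 1
    rw [ENNReal.ofReal_inv_of_pos (by norm_num)]
    simp

/-- Lower bound of the Green function. -/
lemma green_lower {N m : ℕ} (hN1 : 1 ≤ N) (hN : ∀ j : ℤ, |j| ≤ (2 ^ m : ℕ) → h j ≤ N) :
    ENNReal.ofReal (m / (288 * N)) ≤
      ∑' k, Chain.pw (Noise.P (stepM h) (PMF.uniformOfFintype (Fin 4))) k (0, 0) (0, 0) := by
  have hNR : (1 : ℝ) ≤ N := by exact_mod_cast hN1
  have hinj : Function.Injective (fun n : ℕ => (n + 1) + (n + 1)) := by
    intro a b hab
    simp only at hab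
    omega
  calc ENNReal.ofReal (m / (288 * N)) ≤
        ENNReal.ofReal (∑ n ∈ range (2 ^ m), 1 / (144 * N * ((n + 1 : ℕ) : ℝ))) := by
        apply ENNReal.ofReal_le_ofReal
        have h1 : ∑ n ∈ range (2 ^ m), 1 / (144 * N * ((n + 1 : ℕ) : ℝ)) =
            1 / (144 * N) * (harmonic (2 ^ m) : ℝ) := by
          rw [harmonic]
          push_cast
          rw [mul_sum]
          apply sum_congr rfl
          intro n _
          field_simp
        rw [h1]
        have h2 := log_add_one_le_harmonic (2 ^ m)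
        have h3 : (m : ℝ) / 2 ≤ (harmonic (2 ^ m) : ℝ) := by
          refine le_trans ?_ h2
          have h4 : Real.log (2 ^ m) ≤ Real.log (((2 ^ m + 1 : ℕ) : ℝ)) := by
            apply Real.log_le_log (by positivity)
            push_cast
            linarith
          rw [Real.log_pow] at h4
          refine le_trans ?_ h4
          have := Real.log_two_gt_d9
          have hm : (0 : ℝ) ≤ m := by positivity
          nlinarith
        calc (m : ℝ) / (288 * N) = 1 / (144 * N) * (m / 2) := by field_simp; ring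
          _ ≤ _ := mul_le_mul_of_nonneg_left h3 (by positivity)
    _ = ∑ n ∈ range (2 ^ m), ENNReal.ofReal (1 / (144 * N * ((n + 1 : ℕ) : ℝ))) := by
        rw [ENNReal.ofReal_sum_of_nonneg]
        intro n _
        positivity
    _ ≤ ∑ n ∈ range (2 ^ m), Chain.pw (Noise.P (stepM h) (PMF.uniformOfFintype (Fin 4)))
          ((n + 1) + (n + 1)) (0, 0) (0, 0) := by
        apply sum_le_sum
        intro n hn
        rw [pw_eq]
        apply ENNReal.ofReal_le_ofReal
        apply return_lower h (by omega) hN1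
        intro j hj
        apply hN
        have := mem_range.mp hn
        refine hj.trans ?_
        exact_mod_cast this
    _ ≤ ∑' n : ℕ, Chain.pw (Noise.P (stepM h) (PMF.uniformOfFintype (Fin 4)))
          ((n + 1) + (n + 1)) (0, 0) (0, 0) := ENNReal.sum_le_tsum _
    _ ≤ _ := ENNReal.tsum_comp_le_tsum_of_injective hinj _

end expectation

section environment

/-- The logarithms of the gap sizes. -/
def a : ℕ → ℕ
  | 0 => 3
  | j + 1 => 4 ^ a j

lemma two_mul_lt (x : ℕ) : 2 * x + 2 ≤ 4 ^ x ∨ x = 0 := by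
  rcases Nat.eq_zero_or_pos x with h | h
  · right; exact h
  · left
    have h1 : x < 2 ^ x := Nat.lt_two_pow_self
    have h2 : 2 ≤ 2 ^ x := by
      calc 2 = 2 ^ 1 := rfl
        _ ≤ 2 ^ x := Nat.pow_le_pow_right (by norm_num) h
    calc 2 * x + 2 = 2 * (x + 1) := by ring
      _ ≤ 2 ^ x * 2 ^ x := Nat.mul_le_mul h2 h1
      _ = 4 ^ x := by rw [← mul_pow]; norm_num

lemma a_ge (j : ℕ) : 2 * j + 3 ≤ a j := by
  induction j with
  | zero => exact le_rfl
  | succ j ih =>
    simp only [a]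
    rcases two_mul_lt (a j) with h | h
    · omega
    · omega

lemma a_succ (j : ℕ) : 2 * a j + 2 ≤ a (j + 1) := by
  have := a_ge j
  rcases two_mul_lt (a j) with h | h
  · exact h
  · omega

lemma a_mono : StrictMono a := strictMono_nat_of_lt_succ fun j => by
  have := a_succ j
  omega

/-- The valuations at which the large gaps occur. -/
def b (j : ℕ) : ℕ := 2 * a j - j

lemma b_mono : StrictMono b := strictMono_nat_of_lt_succ fun j => by
  have h1 := a_succ j
  have h2 := a_ge j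
  unfold b
  omega

open Classical in
/-- The gap size as a function of the valuation. -/
noncomputable def gv (v : ℕ) : ℕ := if h : ∃ j, b j = v then 2 ^ (a h.choose) else 1

lemma gv_b (j : ℕ) : gv (b j) = 2 ^ a j := by
  have h : ∃ i, b i = b j := ⟨j, rfl⟩
  unfold gv
  rw [dif_pos h]
  congr 2
  exact b_mono.injective h.choose_spec

lemma gv_cases (v : ℕ) : gv v = 1 ∨ ∃ j, v = b j ∧ gv v = 2 ^ a j := by
  by_cases h : ∃ j, b j = v
  · obtain ⟨j, rfl⟩ := h
    exact Or.inr ⟨j, rfl, gv_b j⟩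
  · left
    unfold gv
    rw [dif_neg h]

/-- The gap function. -/
noncomputable def g (z : ℤ_[2]) : ℕ := gv z.valuation

lemma one_le_g (z : ℤ_[2]) : 1 ≤ g z := by
  unfold g
  rcases gv_cases z.valuation with h | ⟨j, _, h⟩
  · rw [h]
  · rw [h]; exact Nat.one_le_two_pow

lemma measurable_g : Measurable g :=
  (measurable_of_countable gv).comp measurable_valuation

lemma weight_le (j : ℕ) : (2 : ℝ≥0∞) ^ a j * 2⁻¹ ^ b j ≤ 2⁻¹ ^ j := by
  have h1 := a_ge j
  have h2 : b j = a j + (a j - j) := by unfold b; omega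
  rw [h2, pow_add, ← mul_assoc, ← mul_pow, ENNReal.mul_inv_cancel (by simp) (by simp), one_pow,
    one_mul]
  exact pow_le_pow_of_le_one bot_le (by simp) (by omega)

lemma lintegral_g : ∫⁻ z, (g z : ℝ≥0∞) ∂nu ≠ ∞ := by
  have h1 : ∀ z, (g z : ℝ≥0∞) ≤ 1 + ∑' j : ℕ, (W (b j)).indicator (fun _ => (2 : ℝ≥0∞) ^ a j) z := by
    intro z
    unfold g
    rcases gv_cases z.valuation with h | ⟨j, hj, h⟩
    · rw [h]; simp
    · refine le_trans ?_ le_add_self
      refine le_trans ?_ (ENNReal.le_tsum j)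
      rw [Set.indicator_of_mem]
      · rw [h]; push_cast; exact le_rfl
      · by_cases hz : z = 0
        · subst hz; exact zero_mem_W _
        · rw [mem_W_iff hz, hj]
  refine ne_top_of_le_ne_top ?_ (lintegral_mono h1)
  rw [lintegral_add_left measurable_const, lintegral_tsum (fun J =>
    (measurable_const.indicator (measurableSet_W _)).aemeasurable)]
  apply ENNReal.add_ne_top.mpr ⟨by simp, ?_⟩
  have h2 : ∀ j : ℕ, ∫⁻ z, (W (b j)).indicator (fun _ => (2 : ℝ≥0∞) ^ a j) z ∂nu ≤ 2⁻¹ ^ j := by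
    intro j
    rw [lintegral_indicator (measurableSet_W _), lintegral_const, Measure.restrict_apply_univ, nu_W]
    exact weight_le j
  refine ne_top_of_le_ne_top ?_ (ENNReal.tsum_le_tsum h2)
  rw [ENNReal.tsum_geometric]
  simp

/-- Almost surely large gaps are far away. -/
lemma ae_far : ∀ᵐ z ∂nu, ∀ᶠ j in Filter.atTop, ∀ i : ℤ, |i| ≤ (2 ^ (b (j + 1) - j - 3) : ℕ) →
    z + (i : ℤ_[2]) ∉ W (b (j + 1)) := by
  have hb : ∀ j, j + 3 ≤ b (j + 1) := by
    intro j
    have := a_ge (j + 1)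
    unfold b
    omega
  set s : ℕ → Set ℤ_[2] := fun j =>
    ⋃ i ∈ Icc (-((2 ^ (b (j + 1) - j - 3) : ℕ) : ℤ)) ((2 ^ (b (j + 1) - j - 3) : ℕ) : ℤ),
      {z | z + (i : ℤ_[2]) ∈ W (b (j + 1))} with hs
  have h1 : ∀ j, nu (s j) ≤ 2⁻¹ ^ j := by
    intro j
    set m := b (j + 1) - j - 3 with hm
    calc nu (s j) ≤ ∑ i ∈ Icc (-((2 ^ m : ℕ) : ℤ)) ((2 ^ m : ℕ) : ℤ),
          nu {z | z + (i : ℤ_[2]) ∈ W (b (j + 1))} := measure_biUnion_finset_le _ _
      _ = (2 * 2 ^ m + 1 : ℕ) * 2⁻¹ ^ b (j + 1) := by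
          simp only [nu_W_add, sum_const, Int.card_Icc, nsmul_eq_mul]
          congr 2
          omega
      _ ≤ (8 * 2 ^ m : ℕ) * 2⁻¹ ^ b (j + 1) := by
          gcongr
          have : 1 ≤ 2 ^ m := Nat.one_le_two_pow
          omega
      _ = 2⁻¹ ^ j := by
          have e : b (j + 1) = m + 3 + j := by have := hb j; omega
          rw [e, pow_add, pow_add]
          push_cast
          have e1 : (2 : ℝ≥0∞) ^ m * 2⁻¹ ^ m = 1 := by
            rw [← mul_pow, ENNReal.mul_inv_cancel (by simp) (by simp), one_pow]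
          have e2 : (8 : ℝ≥0∞) * 2⁻¹ ^ 3 = 1 := by
            rw [show (8 : ℝ≥0∞) = 2 ^ 3 by norm_num, ← mul_pow,
              ENNReal.mul_inv_cancel (by simp) (by simp), one_pow]
          calc (8 : ℝ≥0∞) * 2 ^ m * (2⁻¹ ^ m * 2⁻¹ ^ 3 * 2⁻¹ ^ j) =
                (8 * 2⁻¹ ^ 3) * (2 ^ m * 2⁻¹ ^ m) * 2⁻¹ ^ j := by ring
            _ = 2⁻¹ ^ j := by rw [e1, e2, one_mul, one_mul]
  have h2 : ∑' j, nu (s j) ≠ ∞ := by
    refine ne_top_of_le_ne_top ?_ (ENNReal.tsum_le_tsum h1)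
    rw [ENNReal.tsum_geometric]
    simp
  filter_upwards [ae_eventually_notMem h2] with z hz
  filter_upwards [hz] with j hj i hi hcon
  apply hj
  rw [hs]
  simp only [Set.mem_iUnion, mem_Icc, Set.mem_ofPred_eq]
  exact ⟨i, abs_le.mp hi, hcon⟩

lemma green_top {z : ℤ_[2]} (hz : ∀ᶠ j in Filter.atTop, ∀ i : ℤ,
    |i| ≤ (2 ^ (b (j + 1) - j - 3) : ℕ) → z + (i : ℤ_[2]) ∉ W (b (j + 1))) :
    ∑' k, Chain.pw (Noise.P (stepM (hseq g z)) (PMF.uniformOfFintype (Fin 4))) k (0, 0) (0, 0) =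
      ∞ := by
  have h1 : ∀ᶠ j : ℕ in Filter.atTop, ENNReal.ofReal ((2 : ℝ) ^ j * (1 / 288)) ≤
      ∑' k, Chain.pw (Noise.P (stepM (hseq g z)) (PMF.uniformOfFintype (Fin 4))) k (0, 0) (0, 0) := by
    filter_upwards [hz] with j hj
    have h2 := green_lower (hseq g z) (N := 2 ^ a j) (m := b (j + 1) - j - 3) Nat.one_le_two_pow (by
      intro i hi
      have h3 := hj i hi
      unfold hseq
      have hne : z + (i : ℤ_[2]) ≠ 0 := fun h => h3 (h ▸ zero_mem_W _)
      rw [mem_W_iff hne] at h3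
      unfold g
      rcases gv_cases (z + (i : ℤ_[2])).valuation with h | ⟨l, hl, h⟩
      · rw [h]; exact Nat.one_le_two_pow
      · rw [h]
        rw [hl, not_le] at h3
        have h4 : l < j + 1 := b_mono.lt_iff_lt.mp h3
        exact Nat.pow_le_pow_right (by norm_num) (a_mono.monotone (by omega)))
    refine le_trans ?_ h2
    apply ENNReal.ofReal_le_ofReal
    have h5 : a (j + 1) ≤ b (j + 1) - j - 3 := by
      have := a_ge (j + 1)
      unfold b
      omega
    have h6 : ((2 : ℝ) ^ a j) * 2 ^ a j ≤ ((b (j + 1) - j - 3 : ℕ) : ℝ) := by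
      have : ((a (j + 1) : ℕ) : ℝ) ≤ ((b (j + 1) - j - 3 : ℕ) : ℝ) := by exact_mod_cast h5
      refine le_trans (le_of_eq ?_) this
      simp only [a]
      rw [← mul_pow]
      push_cast
      norm_num
    rw [le_div_iff₀ (by positivity)]
    push_cast
    have h7 : (2 : ℝ) ^ j ≤ 2 ^ a j :=
      pow_le_pow_right₀ (by norm_num) (by have := a_ge j; omega)
    calc (2 : ℝ) ^ j * (1 / 288) * (288 * 2 ^ a j) = 2 ^ j * 2 ^ a j := by ring
      _ ≤ 2 ^ a j * 2 ^ a j := mul_le_mul_of_nonneg_right h7 (by positivity)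
      _ ≤ _ := h6
  have h2 : Filter.Tendsto (fun j : ℕ => ENNReal.ofReal ((2 : ℝ) ^ j * (1 / 288))) Filter.atTop
      (nhds ∞) := by
    apply ENNReal.tendsto_ofReal_atTop.comp
    exact (tendsto_pow_atTop_atTop_of_one_lt (by norm_num)).atTop_mul_const (by norm_num)
  exact top_le_iff.mp (le_of_tendsto h2 h1)

end environment

section conditionT

lemma gap_env {h : ℤ → ℕ} (hh : ∀ i, 1 ≤ h i) : gap (1, 0) (env h 0) = h 0 := by
  rw [← sInf_right hh 0]
  unfold gap
  congr 1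
  ext k
  simp only [Set.mem_ofPred_eq, env_apply, Prod.smul_mk, smul_eq_mul, mul_one, mul_zero, add_zero,
    Nat.cast_zero, pos_zero, zero_add]

lemma not_conditionT : ¬ ConditionT (Q g) := by
  rintro ⟨C, hC, hT⟩
  set c := ∫⁻ z, (g z : ℝ≥0∞) ∂nu with hc
  have hcfin : c ≠ ∞ := lintegral_g
  have hcpos : c ≠ 0 := c_pos one_le_g
  have hgap : Measurable (gap (1, 0)) := measurable_gap _
  have henv := measurable_env measurable_g 0
  have hE : ∫⁻ ω, (gap (1, 0) ω : ℝ≥0∞) ∂((Q g)[|Om0]) = c := by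
    rw [cond_eq measurable_g one_le_g lintegral_g, lintegral_map]
    · rw [hc]
      congr 1
      ext z
      rw [gap_env (h := hseq g z) (fun i => one_le_g _), hseq_zero]
    · exact (measurable_of_countable (fun n : ℕ => (n : ℝ≥0∞))).comp hgap
    · exact henv
  have key : ∀ j : ℕ, (2 : ℝ≥0∞) ^ j ≤ 2 * (ENNReal.ofReal C * c) := by
    intro j
    have h1 := hT (1, 0) (by simp) (2 ^ a j) Nat.one_le_two_pow
    rw [hE] at h1
    have h2 : ((2 ^ a j : ℕ) : ℝ≥0∞) * ((Q g)[|Om0]) {ω | gap (1, 0) ω = 2 ^ a j} ≤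
        ∑' k : ℕ, if 2 ^ a j ≤ k then (k : ℝ≥0∞) * ((Q g)[|Om0]) {ω | gap (1, 0) ω = k} else 0 := by
      refine le_trans ?_ (ENNReal.le_tsum (2 ^ a j))
      rw [if_pos le_rfl]
    have h3 : 2⁻¹ ^ (b j + 1) ≤ ((Q g)[|Om0]) {ω | gap (1, 0) ω = 2 ^ a j} := by
      have hms : MeasurableSet {ω : Om | gap (1, 0) ω = 2 ^ a j} :=
        hgap (measurableSet_singleton (2 ^ a j))
      rw [cond_eq measurable_g one_le_g lintegral_g, Measure.map_apply henv hms]
      refine (nu_val_eq (b j)).trans (measure_mono ?_)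
      intro z hz
      simp only [Set.mem_ofPred_eq] at hz
      show gap (1, 0) (env (hseq g z) 0) = 2 ^ a j
      rw [gap_env (h := hseq g z) (fun i => one_le_g _), hseq_zero]
      unfold g
      rw [hz, gv_b]
    have h4 : ((2 ^ a j : ℕ) : ℝ≥0∞) * 2⁻¹ ^ (b j + 1) / c ≤
        ENNReal.ofReal (C / ((2 ^ a j : ℕ) : ℝ)) := by
      refine le_trans ?_ h1
      apply ENNReal.div_le_div_right
      refine le_trans ?_ h2
      gcongr
    have h5 : ENNReal.ofReal (C / ((2 ^ a j : ℕ) : ℝ)) = ENNReal.ofReal C / ((2 ^ a j : ℕ) : ℝ≥0∞) := by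
      rw [ENNReal.ofReal_div_of_pos (by positivity), ENNReal.ofReal_natCast]
    rw [h5, ENNReal.div_le_iff hcpos hcfin] at h4
    have hNpos : ((2 ^ a j : ℕ) : ℝ≥0∞) ≠ 0 := by
      simp
    have hNtop : ((2 ^ a j : ℕ) : ℝ≥0∞) ≠ ∞ := ENNReal.natCast_ne_top _
    have h6 : ((2 ^ a j : ℕ) : ℝ≥0∞) * (((2 ^ a j : ℕ) : ℝ≥0∞) * 2⁻¹ ^ (b j + 1)) ≤
        ENNReal.ofReal C * c := by
      calc ((2 ^ a j : ℕ) : ℝ≥0∞) * (((2 ^ a j : ℕ) : ℝ≥0∞) * 2⁻¹ ^ (b j + 1)) ≤
            ((2 ^ a j : ℕ) : ℝ≥0∞) * (ENNReal.ofReal C / ((2 ^ a j : ℕ) : ℝ≥0∞) * c) := by gcongr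
        _ = ((2 ^ a j : ℕ) : ℝ≥0∞) * (ENNReal.ofReal C / ((2 ^ a j : ℕ) : ℝ≥0∞)) * c := by ring
        _ = ENNReal.ofReal C * c := by rw [ENNReal.mul_div_cancel hNpos hNtop]
    have h7 : (2 : ℝ≥0∞) ^ j =
        2 * (((2 ^ a j : ℕ) : ℝ≥0∞) * (((2 ^ a j : ℕ) : ℝ≥0∞) * 2⁻¹ ^ (b j + 1))) := by
      have e : 2 * a j = b j + j := by have := a_ge j; unfold b; omega
      push_cast
      rw [pow_succ (2⁻¹ : ℝ≥0∞)]
      calc (2 : ℝ≥0∞) ^ j = 2 ^ j * (2 ^ b j * 2⁻¹ ^ b j) * (2 * 2⁻¹) := by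
            rw [← mul_pow, ENNReal.mul_inv_cancel (by simp) (by simp), one_pow, mul_one, mul_one]
        _ = 2 * (2 ^ (b j + j) * (2⁻¹ ^ b j * 2⁻¹)) := by rw [pow_add]; ring
        _ = 2 * (2 ^ a j * (2 ^ a j * (2⁻¹ ^ b j * 2⁻¹))) := by
            rw [← e, show 2 * a j = a j + a j by ring, pow_add]; ring
    rw [h7]
    gcongr
  have hfin : 2 * (ENNReal.ofReal C * c) ≠ ∞ :=
    ENNReal.mul_ne_top (by simp) (ENNReal.mul_ne_top ENNReal.ofReal_ne_top hcfin)
  obtain ⟨n, hn⟩ := ENNReal.exists_nat_gt hfin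
  have h8 : (n : ℝ≥0∞) ≤ 2 ^ n := by
    have : n ≤ 2 ^ n := Nat.lt_two_pow_self.le
    exact_mod_cast this
  exact absurd (hn.trans_le (h8.trans (key n))) (lt_irrefl _)

end conditionT

/-- **Main result.** There is a two-dimensional discrete point process for which the walk is
recurrent but condition (T) fails. -/
theorem result : ∃ Q : Measure Om, IsPointProcess Q ∧ IsRecurrent Q ∧ ¬ ConditionT Q := by
  refine ⟨Q g, isPointProcess measurable_g one_le_g lintegral_g, ?_, not_conditionT⟩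
  apply ae_annealed measurable_g one_le_g lintegral_g measurableSet_return
  filter_upwards [ae_far] with z hz
  exact return_of_green (fun i => one_le_g _) (green_top hz)

end Pool.Agent.Results.MP_01c081_pr.RecurrentWithoutT
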